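import Pool.Agent.Helper1.Cyc.Main

/-!
# MP_4087c1_co

Every finite graph with a cyclic track assignment and a time order has an obstacle representation
with two connected obstacles.
-/

set_option autoImplicit false

namespace Pool.Agent.Results.MP_4087c1_co.CyclicTracks

/-- Let the vertices of a finite graph `G` be put on `m ≥ 3` tracks, numbered cyclically
(`τ v : ZMod m` is the track of `v`), and let `t` be an injective time. Suppose that

* edges join vertices of the same track or of cyclically consecutive tracks;
* inside a track adjacency is inherited by inner pairs;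
* for every pair `a, c` of non-adjacent vertices, `c` on the track following that of `a`, one of
  the following holds:
  - `a` is earlier than `c`, and all neighbours on the track of `c` of the vertices of the track of
    `a` up to `a` are earlier than `c`;
  - `c` is earlier than `a`, and all neighbours on the track of `c` of the vertices of the track of
    `a` from `a` on are later than `c`;
  - all neighbours of `a` on its own track are earlier than `a` and its neighbours on the track of
    `c` are later than `c`;
  - all neighbours of `c` on its own track are later than `c` and its neighbours on the track of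
    `a` are earlier than `a`.

Then `G` has an obstacle representation with two connected obstacles. -/
theorem result :
    ∀ (V : Type) [Fintype V] (G : SimpleGraph V) (m : ℕ) (τ : V → ZMod m) (t : V → ℕ),
      3 ≤ m →
      Function.Injective t →
      (∀ u v, G.Adj u v → τ v = τ u ∨ τ v = τ u + 1 ∨ τ u = τ v + 1) →
      (∀ a b c d, G.Adj a b → τ b = τ a → τ c = τ a → τ d = τ a → t a ≤ t c → t c < t d →
        t d ≤ t b → G.Adj c d) →
      (∀ a c, τ c = τ a + 1 → ¬ G.Adj a c →
        (t a < t c ∧
          ∀ a' c', τ a' = τ a → τ c' = τ c → G.Adj a' c' → t a' ≤ t a → t c' < t c) ∨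
        (t c < t a ∧
          ∀ a' c', τ a' = τ a → τ c' = τ c → G.Adj a' c' → t a ≤ t a' → t c < t c') ∨
        (∀ w, G.Adj a w → (τ w = τ a → t w < t a) ∧ (τ w = τ c → t c < t w)) ∨
        (∀ w, G.Adj c w → (τ w = τ c → t c < t w) ∧ (τ w = τ a → t w < t a))) →
      ∃ (q : V → ℝ × ℝ) (O₁ O₂ : Set (ℝ × ℝ)),
        Function.Injective q ∧ IsPreconnected O₁ ∧ IsPreconnected O₂ ∧
        (∀ v : V, q v ∉ O₁ ∪ O₂) ∧
        (∀ u v : V, u ≠ v → (G.Adj u v ↔ Disjoint (segment ℝ (q u) (q v)) (O₁ ∪ O₂))) :=
  fun _ _ _ _ _ _ hm h1 h2 h3 h4 =>
    Pool.Agent.Helper1.Cyc.cyclic_two_obstacles hm ⟨h1, h2, h3, h4⟩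

end Pool.Agent.Results.MP_4087c1_co.CyclicTracks
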