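import Pool.Agent.Helper1.Lev.Main

/-!
# MP_4087c1_co

Every finite leveled graph with interval fans has an obstacle representation with a single
connected obstacle.
-/

set_option autoImplicit false

namespace Pool.Agent.Results.MP_4087c1_co.LeveledGraphs

/-- Let the vertices of a finite graph `G` be placed on levels, vertex `v` being the point number
`r v` of the level `ℓ v`, such that

* inside a level adjacency is inherited by inner pairs (so it may hold between consecutive vertices
  only);
* all other edges join adjacent levels;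
* between two adjacent levels a crossing pair of edges `u v'`, `u' v` forces the edges `u v` and
  `u' v'` (so there may be no crossing at all);
* the neighbours of a vertex on an adjacent level form an interval of that level.

Then `G` has an obstacle representation with one connected obstacle. -/
theorem result :
    ∀ (V : Type) [Fintype V] (G : SimpleGraph V) (ℓ r : V → ℕ),
      (∀ u v, ℓ u = ℓ v → r u = r v → u = v) →
      (∀ u v w x, G.Adj u v → ℓ u = ℓ v → ℓ w = ℓ u → ℓ x = ℓ u →
        r u ≤ r w → r w < r x → r x ≤ r v → G.Adj w x) →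
      (∀ u v, G.Adj u v → ℓ v ≤ ℓ u + 1) →
      (∀ u u' v v', ℓ u' = ℓ u → ℓ v = ℓ u + 1 → ℓ v' = ℓ v → r u < r u' → r v < r v' →
        G.Adj u v' → G.Adj u' v → G.Adj u v ∧ G.Adj u' v') →
      (∀ u v w x, G.Adj u v → G.Adj u x → ℓ u ≠ ℓ v → ℓ w = ℓ v → ℓ x = ℓ v →
        r v < r w → r w < r x → G.Adj u w) →
      ∃ (q : V → ℝ × ℝ) (O : Set (ℝ × ℝ)),
        Function.Injective q ∧ IsPreconnected O ∧ (∀ v : V, q v ∉ O) ∧
        (∀ u v : V, u ≠ v → (G.Adj u v ↔ Disjoint (segment ℝ (q u) (q v)) O)) :=
  fun _ _ G ℓ r h1 h2 h3 h4 h5 =>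
    Pool.Agent.Helper1.Lev.leveled_one_obstacle G ℓ r ⟨h1, h2, h3, h4, h5⟩

end Pool.Agent.Results.MP_4087c1_co.LeveledGraphs
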