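import Pool.Agent.Helper12.Apo.Planar

/-!
# MP_4087c1_co

Every finite planar chordal graph (in particular every planar 3-tree) has an obstacle
representation with a single connected obstacle.
-/

set_option autoImplicit false

namespace Pool.Agent.Results.MP_4087c1_co.PlanarChordal

/-- Every finite planar graph without induced cycles of length at least four has an obstacle
representation with one connected obstacle: distinct points for the vertices, and adjacency holds
exactly when the segment between two vertices misses the obstacle. -/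
theorem result :
    ∀ (V : Type) [Fintype V] (G : SimpleGraph V),
      (∃ (p : V → ℝ × ℝ) (γ : ∀ u v : V, Path (p u) (p v)),
          Function.Injective p ∧
          (∀ u v : V, G.Adj u v → Function.Injective ⇑(γ u v)) ∧
          (∀ u v w : V, G.Adj u v → p w ∈ Set.range ⇑(γ u v) → w = u ∨ w = v) ∧
          (∀ u v w x : V, G.Adj u v → G.Adj w x → ¬ (w = u ∧ x = v) → ¬ (w = v ∧ x = u) →
            ∀ z : ℝ × ℝ, z ∈ Set.range ⇑(γ u v) → z ∈ Set.range ⇑(γ w x) →
              z = p u ∨ z = p v)) →
      (∀ m : ℕ, 4 ≤ m → IsEmpty (SimpleGraph.cycleGraph m ↪g G)) →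
      ∃ (q : V → ℝ × ℝ) (O : Set (ℝ × ℝ)),
        Function.Injective q ∧ IsPreconnected O ∧ (∀ v : V, q v ∉ O) ∧
        (∀ u v : V, u ≠ v → (G.Adj u v ↔ Disjoint (segment ℝ (q u) (q v)) O)) :=
  fun _ _ _ hP hG => Pool.Agent.Helper12.Apo.planar_chordal hP hG

end Pool.Agent.Results.MP_4087c1_co.PlanarChordal
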