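import Pool.Agent.Helper1.TD.Main

/-!
# MP_4087c1_co

Two obstacles suffice for every graph whose connected components are induced subgraphs of
two-disc triangulations: planar triangulations made of two triangulated polygons and an annular
strip of triangles between them.
-/

set_option autoImplicit false

namespace Pool.Agent.Results.MP_4087c1_co.TwoDiscs

/-- `P` is a triangulation of the polygon with the vertices `0, …, p - 1` in this cyclic order:
no two edges of `P` cross, and every pair of distinct non-adjacent vertices is crossed by an edge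
of `P`. -/
def TriangulatedPolygon {p : ℕ} (P : SimpleGraph (Fin p)) : Prop :=
  (∀ i j k l : Fin p, i < j → j < k → k < l → P.Adj i k → ¬ P.Adj j l) ∧
  (∀ i k : Fin p, i < k → ¬ P.Adj i k → ∃ j l : Fin p, P.Adj j l ∧ i < j ∧ j < k ∧
    (l < i ∨ k < l))

/-- The closed strip of triangles around an annulus between a `p`-gon and a `q`-gon. The edges of
the strip are the pairs `(α t mod p, β t mod q)`: at each step exactly one of the two ends moves
to its successor, after `p + q` steps both ends have gone around once, and no edge is used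
twice. -/
def AnnularStrip (p q : ℕ) (α β : ℕ → ℕ) : Prop :=
  1 ≤ p ∧ 1 ≤ q ∧
  (∀ t, (α (t + 1) = α t + 1 ∧ β (t + 1) = β t) ∨ (α (t + 1) = α t ∧ β (t + 1) = β t + 1)) ∧
  (∀ t, α (t + (p + q)) = α t + p) ∧
  ∀ s t, s < t → t < s + (p + q) → ¬ (α s ≡ α t [MOD p] ∧ β s ≡ β t [MOD q])

/-- adjacency in the two-disc triangulation -/
def TwoDiscAdj {p q : ℕ} (P : SimpleGraph (Fin p)) (Q : SimpleGraph (Fin q)) (α β : ℕ → ℕ) :
    Fin p ⊕ Fin q → Fin p ⊕ Fin q → Prop
  | Sum.inl i, Sum.inl i' => P.Adj i i'
  | Sum.inr j, Sum.inr j' => Q.Adj j j'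
  | Sum.inl i, Sum.inr j => ∃ t, α t % p = i.val ∧ β t % q = j.val
  | Sum.inr j, Sum.inl i => ∃ t, α t % p = i.val ∧ β t % q = j.val

/-- The two-disc triangulation: the disjoint union of `P` and `Q` together with the edges of the
strip. -/
def twoDisc {p q : ℕ} (P : SimpleGraph (Fin p)) (Q : SimpleGraph (Fin q)) (α β : ℕ → ℕ) :
    SimpleGraph (Fin p ⊕ Fin q) where
  Adj := TwoDiscAdj P Q α β
  symm := ⟨by
    rintro (i | j) (i' | j') h
    · exact SimpleGraph.Adj.symm (G := P) h
    · exact h
    · exact h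
    · exact SimpleGraph.Adj.symm (G := Q) h⟩
  loopless := ⟨by
    rintro (i | j) h
    · exact P.loopless.irrefl _ h
    · exact Q.loopless.irrefl _ h⟩

/-- Let `G` be a finite graph such that every connected component of `G` is (isomorphic to) an
induced subgraph of a two-disc triangulation. Then `G` has an obstacle representation with two
connected obstacles. -/
theorem result :
    ∀ (V : Type) [Fintype V] (G : SimpleGraph V),
      (∀ c : G.ConnectedComponent, ∃ (p q : ℕ) (P : SimpleGraph (Fin p))
        (Q : SimpleGraph (Fin q)) (α β : ℕ → ℕ), TriangulatedPolygon P ∧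
          TriangulatedPolygon Q ∧ AnnularStrip p q α β ∧
          Nonempty (G.induce c.supp ↪g twoDisc P Q α β)) →
      ∃ (x : V → ℝ × ℝ) (O₁ O₂ : Set (ℝ × ℝ)),
        Function.Injective x ∧ IsPreconnected O₁ ∧ IsPreconnected O₂ ∧
        (∀ v : V, x v ∉ O₁ ∪ O₂) ∧
        (∀ u v : V, u ≠ v → (G.Adj u v ↔ Disjoint (segment ℝ (x u) (x v)) (O₁ ∪ O₂))) := by
  intro V _ G hG
  refine Pool.Agent.Helper1.TD.components_two_obstacles G ?_
  intro c
  obtain ⟨p, q, P, Q, α, β, hP, hQ, h, ⟨f⟩⟩ := hG c
  refine ⟨p, q, P, Q, α, β, hP, hQ, h, f, f.injective, ?_⟩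
  intro u v
  have h1 : (G.induce c.supp).Adj u v ↔ (twoDisc P Q α β).Adj (f u) (f v) :=
    f.map_adj_iff.symm
  have h2 : ∀ a b : Fin p ⊕ Fin q, (twoDisc P Q α β).Adj a b ↔
      Pool.Agent.Helper1.TD.crel P Q α β a b := by
    rintro (i | j) (i' | j') <;> exact Iff.rfl
  rw [← h2, ← h1]
  exact Iff.rfl

end Pool.Agent.Results.MP_4087c1_co.TwoDiscs
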